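import Pool.Agent.KS6_43.AF.Defs

/-! Setting (A): for a subgroup of prime order the monoid is always finitely generated. -/

set_option autoImplicit false

namespace Pool.Agent.KS6_43.AF

open Equiv

/-! ### Submonoids of `ℕ²` -/

lemma numeric (S : Set (ℕ × ℕ)) (M : ℕ) (hM : 0 < M) (h1 : (1, 0) ∈ S) (h2 : (0, M) ∈ S) :
    ∃ T : Set (ℕ × ℕ), T.Finite ∧ T ⊆ S ∧ (1, 0) ∈ T ∧ (0, M) ∈ T ∧
      ∀ s ∈ S, ∃ t ∈ T, ∃ x y : ℕ, s.1 = t.1 + x ∧ s.2 = t.2 + y * M := by
  let P : ℕ → ℕ × ℕ → Prop := fun r x => x ∈ S ∧ x.2 % M = r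
  have hfin : ∀ r, {x | Minimal (P r) x}.Finite := fun r =>
    WellQuasiOrderedLE.finite_of_isAntichain (setOfPred_minimal_antichain (P r))
  refine ⟨{(1, 0), (0, M)} ∪ ⋃ r ∈ Finset.range M, {x | Minimal (P r) x}, ?_, ?_, ?_, ?_, ?_⟩
  · exact (Set.toFinite _).union (Set.Finite.biUnion (Finset.finite_toSet _) fun r _ => hfin r)
  · rintro x (hx | hx)
    · rcases hx with rfl | rfl
      · exact h1
      · exact h2
    · simp only [Set.mem_iUnion] at hx
      obtain ⟨r, -, hx⟩ := hx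
      exact hx.1.1
  · exact Or.inl (Or.inl rfl)
  · exact Or.inl (Or.inr rfl)
  · intro s hs
    obtain ⟨b, hb, hmin⟩ := exists_minimal_le_of_wellFoundedLT (P (s.2 % M)) s ⟨hs, rfl⟩
    refine ⟨b, Or.inr ?_, s.1 - b.1, (s.2 - b.2) / M, ?_, ?_⟩
    · simp only [Set.mem_iUnion]
      exact ⟨s.2 % M, Finset.mem_coe.2 (Finset.mem_range.2 (Nat.mod_lt _ (by omega))), hmin⟩
    · have := hb.1
      omega
    · have h3 : b.2 ≤ s.2 := hb.2
      have h4 : b.2 % M = s.2 % M := hmin.1.2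
      have h5 : M ∣ s.2 - b.2 := (Nat.modEq_iff_dvd' h3).1 h4
      rw [Nat.div_mul_cancel h5]
      omega

/-! ### Permutations of prime order -/

lemma cycleType_eq {α : Type} [Fintype α] [DecidableEq α] {p : ℕ} (hp : p.Prime) (σ : Perm α)
    (hσ : σ ^ p = 1) : ∃ k, σ.cycleType = Multiset.replicate k p ∧ k * p = σ.support.card := by
  refine ⟨Multiset.card σ.cycleType, ?_, ?_⟩
  · rw [Multiset.eq_replicate]
    refine ⟨rfl, fun b hb => ?_⟩
    have h1 := Equiv.Perm.dvd_of_mem_cycleType hb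
    have h2 := Equiv.Perm.two_le_of_mem_cycleType hb
    have h3 := h1.trans (orderOf_dvd_of_pow_eq_one hσ)
    rcases (Nat.dvd_prime hp).1 h3 with h | h
    · omega
    · exact h
  · rw [← Equiv.Perm.sum_cycleType]
    have h1 : σ.cycleType = Multiset.replicate (Multiset.card σ.cycleType) p := by
      rw [Multiset.eq_replicate]
      refine ⟨rfl, fun b hb => ?_⟩
      have h1 := Equiv.Perm.dvd_of_mem_cycleType hb
      have h2 := Equiv.Perm.two_le_of_mem_cycleType hb
      have h3 := h1.trans (orderOf_dvd_of_pow_eq_one hσ)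
      rcases (Nat.dvd_prime hp).1 h3 with h | h
      · omega
      · exact h
    conv_rhs => rw [h1, Multiset.sum_replicate, smul_eq_mul]

lemma conj_of_card {α : Type} [Fintype α] [DecidableEq α] {p : ℕ} (hp : p.Prime) (σ τ : Perm α)
    (hσ : σ ^ p = 1) (hτ : τ ^ p = 1)
    (hc : Nat.card {x // σ x ≠ x} = Nat.card {x // τ x ≠ x}) : IsConj σ τ := by
  obtain ⟨k, h1, h2⟩ := cycleType_eq hp σ hσ
  obtain ⟨l, h3, h4⟩ := cycleType_eq hp τ hτ
  have h5 : ∀ ρ : Perm α, Nat.card {x // ρ x ≠ x} = ρ.support.card := by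
    intro ρ
    rw [Nat.card_eq_fintype_card, Fintype.card_subtype]
    congr 1
  rw [h5, h5, ← h2, ← h4] at hc
  have h6 : k = l := Nat.eq_of_mul_eq_mul_right hp.pos hc
  rw [Equiv.Perm.isConj_iff_cycleType_eq, h1, h3, h6]

/-! ### Disjoint unions -/

section

variable {G : Type*} [Group G] {r : ℕ} {d : Fin r → ℕ} (φ : ∀ j, G →* Perm (Fin (d j)))
  (c : Fin r → ℕ)

/-- the action on the disjoint union -/
def mvP : G →* Perm (Σ j, Fin (c j) × Fin (d j)) where
  toFun g := Equiv.sigmaCongrRight fun j => Equiv.prodCongrRight fun _ => φ j g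
  map_one' := by
    ext1 ⟨j, k, x⟩
    simp
  map_mul' g g' := by
    ext1 ⟨j, k, x⟩
    simp

lemma mvP_apply (g : G) (y : Σ j, Fin (c j) × Fin (d j)) :
    mvP φ c g y = ⟨y.1, y.2.1, φ y.1 g y.2.2⟩ := rfl

lemma card_moved (g : G) : Nat.card {y // mvP φ c g y ≠ y} =
    ∑ j, c j * Nat.card {x : Fin (d j) // φ j g x ≠ x} := by
  let e : {y // mvP φ c g y ≠ y} ≃ Σ j, Fin (c j) × {x : Fin (d j) // φ j g x ≠ x} :=
    { toFun := fun y => ⟨y.1.1, y.1.2.1, ⟨y.1.2.2, fun h => y.2 (by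
        obtain ⟨⟨j, k, x⟩, hy⟩ := y
        rw [mvP_apply]
        simp only at h ⊢
        rw [h])⟩⟩
      invFun := fun y => ⟨⟨y.1, y.2.1, y.2.2.1⟩, fun h => y.2.2.2 (by
        obtain ⟨j, k, x, hx⟩ := y
        rw [mvP_apply] at h
        simp only [Sigma.mk.injEq, heq_eq_eq, true_and, Prod.mk.injEq] at h
        exact h)⟩
      left_inv := fun y => rfl
      right_inv := fun y => rfl }
  rw [Nat.card_congr e, Nat.card_sigma]
  refine Finset.sum_congr rfl fun j _ => ?_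
  rw [Nat.card_prod, Nat.card_eq_fintype_card, Fintype.card_fin]

end

lemma iso_of_sums {G : Type*} [Group G] {H : Subgroup G} {p : ℕ} (hp : p.Prime) (z : G)
    (hz : z ^ p = 1) (hH : H ≤ Subgroup.zpowers z) {r : ℕ} (d : Fin r → ℕ)
    (φ : ∀ j, G →* Perm (Fin (d j))) {n : ℕ} (ψ : G →* Perm (Fin n)) (c : Fin r → ℕ)
    (h1 : ∑ j, c j * d j = n)
    (h2 : ∑ j, c j * Nat.card {x : Fin (d j) // φ j z x ≠ x} = Nat.card {x // ψ z x ≠ x}) :
    ∃ e : Fin n ≃ Σ j, Fin (c j) × Fin (d j),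
      ∀ h ∈ H, ∀ x, e (ψ h x) = ⟨(e x).1, (e x).2.1, φ (e x).1 h (e x).2.2⟩ := by
  have hcard : Fintype.card (Σ j, Fin (c j) × Fin (d j)) = n := by
    rw [Fintype.card_sigma, ← h1]
    simp
  let b : Fin n ≃ Σ j, Fin (c j) × Fin (d j) := (Fintype.equivFinOfCardEq hcard).symm
  let τ : Perm (Fin n) := b.symm.permCongrHom (mvP φ c z)
  have hτa : ∀ x, τ x = b.symm (mvP φ c z (b x)) := fun x => rfl
  have hconj : IsConj (ψ z) τ := by
    refine conj_of_card hp _ _ (by rw [← map_pow, hz, map_one])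
      (by rw [← map_pow, ← map_pow, hz, map_one, map_one]) ?_
    rw [← h2, ← card_moved]
    refine (Nat.card_congr (b.subtypeEquiv fun x => ?_)).symm
    rw [hτa, not_iff_not, Equiv.symm_apply_eq]
  obtain ⟨π, hπ⟩ := isConj_iff.1 hconj
  refine ⟨π.trans b, ?_⟩
  let K : Subgroup G :=
    { carrier := {g | ∀ x, b (π (ψ g x)) = mvP φ c g (b (π x))}
      mul_mem' := by
        intro g g' hg hg' x
        rw [map_mul, map_mul, Perm.mul_apply, Perm.mul_apply, hg, hg']
      one_mem' := by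
        intro x
        rw [map_one, map_one]
        rfl
      inv_mem' := by
        intro g hg x
        have h3 := hg (ψ g⁻¹ x)
        have e1 : ψ g (ψ g⁻¹ x) = x := by
          rw [← Perm.mul_apply (ψ g), ← map_mul, mul_inv_cancel, map_one, Perm.one_apply]
        rw [e1] at h3
        rw [h3, ← Perm.mul_apply (mvP φ c g⁻¹), ← map_mul, inv_mul_cancel, map_one,
          Perm.one_apply] }
  have hzK : z ∈ K := by
    intro x
    have h3 : π (ψ z x) = τ (π x) := by
      rw [← hπ]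
      simp
    rw [h3, hτa, Equiv.apply_symm_apply]
  have hK : H ≤ K := hH.trans (by rwa [Subgroup.zpowers_le])
  intro h hh x
  exact hK hh x

/-- **Subgroups of prime order.** -/
theorem finGenA_of_prime {G : Type*} [Group G] (H : Subgroup G) (hH : (Nat.card H).Prime) :
    FinGenA H := by
  have : Fact (Nat.card H).Prime := ⟨hH⟩
  have hcyc : IsCyclic H := isCyclic_of_prime_card rfl
  obtain ⟨⟨z, hzH⟩, hz⟩ := hcyc.exists_generator
  have hle : H ≤ Subgroup.zpowers z := by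
    intro g hg
    obtain ⟨m, hm⟩ := hz ⟨g, hg⟩
    exact ⟨m, congrArg Subtype.val hm⟩
  have hzp : z ^ Nat.card H = 1 := by
    have h1 : (⟨z, hzH⟩ : H) ^ Nat.card H = 1 := pow_card_eq_one'
    exact congrArg Subtype.val h1
  by_cases htriv : ∀ (n : ℕ) (ψ : G →* Perm (Fin n)), ψ z = 1
  · refine ⟨1, fun _ => 1, fun _ => 1, fun n ψ => ⟨fun _ => n, ?_⟩⟩
    refine iso_of_sums hH z hzp hle (fun _ : Fin 1 => 1) (fun _ => 1) ψ (fun _ => n) ?_ ?_
    · simp
    · rw [htriv n ψ]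
      simp
  · push Not at htriv
    obtain ⟨n₀, ψ₀, hψ₀⟩ := htriv
    set S : Set (ℕ × ℕ) := {s | ∃ ψ : G →* Perm (Fin (s.1 + s.2)),
      Nat.card {x // ψ z x ≠ x} = s.2} with hS
    set M := Fintype.card (Perm (Fin n₀)) with hM
    have hS1 : (1, 0) ∈ S := ⟨1, by simp⟩
    have hM0 : 0 < M := Fintype.card_pos
    have hS2 : (0, M) ∈ S := by
      have hc : Fintype.card (Perm (Fin n₀)) = 0 + M := by rw [zero_add]
      let b := Fintype.equivFinOfCardEq hc
      refine ⟨b.permCongrHom.toMonoidHom.comp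
        ((MulAction.toPermHom (Perm (Fin n₀)) (Perm (Fin n₀))).comp ψ₀), ?_⟩
      have hall : ∀ x : Fin (0 + M), (b.permCongrHom.toMonoidHom.comp
        ((MulAction.toPermHom (Perm (Fin n₀)) (Perm (Fin n₀))).comp ψ₀)) z x ≠ x := by
        intro x hx
        have h1 : b (ψ₀ z * b.symm x) = x := hx
        have h2 : ψ₀ z * b.symm x = b.symm x := by rw [Equiv.eq_symm_apply, h1]
        exact hψ₀ (mul_eq_right.1 h2)
      rw [Nat.card_congr (Equiv.subtypeUnivEquiv hall), Nat.card_eq_fintype_card,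
        Fintype.card_fin, zero_add]
    obtain ⟨T, hTf, hTS, hT1, hT2, hT⟩ := numeric S M hM0 hS1 hS2
    let ε := hTf.toFinset.equivFin
    let v : Fin hTf.toFinset.card → ℕ × ℕ := fun j => (ε.symm j).1
    have hv : ∀ j, v j ∈ S := fun j => hTS (hTf.mem_toFinset.1 (ε.symm j).2)
    choose φ hφ using hv
    refine ⟨_, fun j => (v j).1 + (v j).2, φ, fun n ψ => ?_⟩
    obtain ⟨f, u, hf, hu⟩ : ∃ f u, n = f + u ∧ Nat.card {x // ψ z x ≠ x} = u := by
      have h1 : Nat.card {x // ψ z x ≠ x} ≤ n := by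
        have := Nat.card_le_card_of_injective (Subtype.val : {x // ψ z x ≠ x} → Fin n)
          Subtype.val_injective
        rwa [Nat.card_eq_fintype_card (α := Fin n), Fintype.card_fin] at this
      exact ⟨n - Nat.card {x // ψ z x ≠ x}, _, by omega, rfl⟩
    have hs : (f, u) ∈ S := by
      subst hf
      exact ⟨ψ, hu⟩
    obtain ⟨t, htT, x, y, hx, hy⟩ := hT _ hs
    have hx' : f = t.1 + x := hx
    have hy' : u = t.2 + y * M := hy
    let jt := ε ⟨t, hTf.mem_toFinset.2 htT⟩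
    let j1 := ε ⟨(1, 0), hTf.mem_toFinset.2 hT1⟩
    let j2 := ε ⟨(0, M), hTf.mem_toFinset.2 hT2⟩
    have hjt : v jt = t := by simp [v, jt]
    have hj1 : v j1 = (1, 0) := by simp [v, j1]
    have hj2 : v j2 = (0, M) := by simp [v, j2]
    refine ⟨Pi.single jt 1 + Pi.single j1 x + Pi.single j2 y, ?_⟩
    have hsum : ∀ w : Fin hTf.toFinset.card → ℕ,
        ∑ j, (Pi.single jt 1 + Pi.single j1 x + Pi.single j2 y : Fin hTf.toFinset.card → ℕ) j * w j
          = w jt + x * w j1 + y * w j2 := by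
      intro w
      simp [Pi.single_apply, add_mul, Finset.sum_add_distrib, ite_mul]
    refine iso_of_sums hH z hzp hle _ φ ψ _ ?_ ?_
    · rw [hsum, hjt, hj1, hj2, hf, hx', hy']
      change t.1 + t.2 + x * (1 + 0) + y * (0 + M) = _
      ring
    · simp only [hφ]
      rw [hsum, hjt, hj1, hj2, hu, hy']
      change t.2 + x * 0 + y * M = _
      ring

end Pool.Agent.KS6_43.AF
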