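import Mathlib

/-! Finite generation of the monoids of restrictions to a subgroup (MP_af3a77_al): definitions. -/

set_option autoImplicit false

namespace Pool.Agent.KS6_43.AF

/-- the complex Hilbert space of dimension `n` -/
abbrev E (n : ℕ) : Type := EuclideanSpace ℂ (Fin n)

/-- Setting (R): the image `i^*(Λ⁺(G))` is finitely generated. There are finitely many unitary
representations `φ j` of `G` (of dimension `d j`) such that for every unitary representation `ψ`
of `G` the restriction of `ψ` to `H` is isomorphic to the direct sum of `c j` copies of the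
restriction of `φ j`, over all `j`, for some numbers `c j`. -/
def FinGenR {G : Type*} [Group G] (H : Subgroup G) : Prop :=
  ∃ (r : ℕ) (d : Fin r → ℕ) (φ : ∀ j, G →* (E (d j) ≃ₗᵢ[ℂ] E (d j))),
    ∀ (n : ℕ) (ψ : G →* (E n ≃ₗᵢ[ℂ] E n)),
      ∃ (c : Fin r → ℕ) (e : E n ≃ₗ[ℂ] (∀ j, Fin (c j) → E (d j))),
        ∀ h ∈ H, ∀ v j k, e (ψ h v) j k = φ j h (e v j k)

/-- Setting (A): the image `i^*(Λ⁺(G))` is finitely generated. There are finitely many actions
`φ j` of `G` on finite sets `Fin (d j)` such that for every action `ψ` of `G` on a finite set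
the restriction of `ψ` to `H` is isomorphic to the disjoint union of `c j` copies of the
restriction of `φ j`, over all `j`, for some numbers `c j`. -/
def FinGenA {G : Type*} [Group G] (H : Subgroup G) : Prop :=
  ∃ (r : ℕ) (d : Fin r → ℕ) (φ : ∀ j, G →* Equiv.Perm (Fin (d j))),
    ∀ (n : ℕ) (ψ : G →* Equiv.Perm (Fin n)),
      ∃ (c : Fin r → ℕ) (e : Fin n ≃ Σ j, Fin (c j) × Fin (d j)),
        ∀ h ∈ H, ∀ x, e (ψ h x) = ⟨(e x).1, (e x).2.1, φ (e x).1 h (e x).2.2⟩

end Pool.Agent.KS6_43.AF
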