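import Pool.Agent.KS6_43.AF.Defs

/-! Setting (R), cyclic subgroups of every order `N ≥ 2`. -/

set_option autoImplicit false

namespace Pool.Agent.KS6_43.AF

open scoped Fin.CommRing Pointwise

/-- no invertible endomorphism `A` is similar to `A ^ N` and `q`-commutes with an invertible
endomorphism, for a nontrivial `N`-th root of unity `q` -/
lemma key {V : Type} [AddCommGroup V] [Module ℂ V] [FiniteDimensional ℂ V] [Nontrivial V]
    (A T D : (Module.End ℂ V)ˣ) (N : ℕ) (hN : 1 ≤ N) (q : ℂ) (hq : q ^ N = 1) (hq1 : q ≠ 1)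
    (h1 : T * A * T⁻¹ = A ^ N)
    (h2 : (A * D : (Module.End ℂ V)ˣ).val = q • (D * A : (Module.End ℂ V)ˣ).val) : False := by
  have hq0 : q ≠ 0 := by
    rintro rfl
    rw [zero_pow (by omega)] at hq
    exact zero_ne_one hq
  have hfin : (spectrum ℂ (A : Module.End ℂ V)).Finite := Module.End.finite_spectrum _
  have hne : (spectrum ℂ (A : Module.End ℂ V)).Nonempty :=
    spectrum.nonempty_of_isAlgClosed_of_finiteDimensional ℂ _
  have hsq : spectrum ℂ ((A : Module.End ℂ V) ^ N) = spectrum ℂ (A : Module.End ℂ V) := by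
    have e1 : ((A : Module.End ℂ V) ^ N) = (T : Module.End ℂ V) * A * (T⁻¹ : (Module.End ℂ V)ˣ) := by
      have := congrArg Units.val h1
      simp only [Units.val_mul, Units.val_pow_eq_pow_val] at this
      exact this.symm
    rw [e1]
    exact spectrum.units_conjugate
  have hneg : ∀ l ∈ spectrum ℂ (A : Module.End ℂ V), q⁻¹ * l ∈ spectrum ℂ (A : Module.End ℂ V) := by
    intro l hl
    have e1 : (A : Module.End ℂ V) = q • ((D : Module.End ℂ V) * A * (D⁻¹ : (Module.End ℂ V)ˣ)) := by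
      have e2 : (A : Module.End ℂ V) * D = q • ((D : Module.End ℂ V) * A) := by
        simpa only [Units.val_mul] using h2
      calc (A : Module.End ℂ V) = (A : Module.End ℂ V) * (D * (D⁻¹ : (Module.End ℂ V)ˣ)) := by
            rw [← Units.val_mul, mul_inv_cancel, Units.val_one, mul_one]
        _ = (A : Module.End ℂ V) * D * (D⁻¹ : (Module.End ℂ V)ˣ) := by rw [mul_assoc]
        _ = _ := by rw [e2, smul_mul_assoc]
    have e3 : spectrum ℂ (A : Module.End ℂ V) = q • spectrum ℂ (A : Module.End ℂ V) := by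
      have e4 : spectrum ℂ (q • ((D : Module.End ℂ V) * A * (D⁻¹ : (Module.End ℂ V)ˣ))) =
          q • spectrum ℂ ((D : Module.End ℂ V) * A * (D⁻¹ : (Module.End ℂ V)ˣ)) :=
        spectrum.unit_smul_eq_smul (R := ℂ)
          ((D : Module.End ℂ V) * A * (D⁻¹ : (Module.End ℂ V)ˣ)) (Units.mk0 q hq0)
      rw [spectrum.units_conjugate, ← e1] at e4
      exact e4
    rw [e3, Set.mem_smul_set] at hl
    obtain ⟨x, hx, rfl⟩ := hl
    rw [smul_eq_mul, ← mul_assoc, inv_mul_cancel₀ hq0, one_mul]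
    exact hx
  have himg : (fun z : ℂ => z ^ N) '' spectrum ℂ (A : Module.End ℂ V) =
      spectrum ℂ (A : Module.End ℂ V) := by
    rw [← spectrum.map_pow_of_nonempty hne N]
    exact hsq
  have hinj : Set.InjOn (fun z : ℂ => z ^ N) (spectrum ℂ (A : Module.End ℂ V)) := by
    have h3 : Set.MapsTo (fun z : ℂ => z ^ N) (spectrum ℂ (A : Module.End ℂ V))
        (spectrum ℂ (A : Module.End ℂ V)) := by
      intro z hz
      rw [← himg]
      exact ⟨z, hz, rfl⟩
    have h4 : Set.SurjOn (fun z : ℂ => z ^ N) (spectrum ℂ (A : Module.End ℂ V))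
        (spectrum ℂ (A : Module.End ℂ V)) := by
      intro z hz
      rw [← himg] at hz
      exact hz
    exact ((hfin.surjOn_iff_bijOn_of_mapsTo h3).mp h4).injOn
  obtain ⟨l, hl⟩ := hne
  have h5 : l = q⁻¹ * l := hinj hl (hneg l hl) (by
    show l ^ N = (q⁻¹ * l) ^ N
    rw [mul_pow, inv_pow, hq, inv_one, one_mul])
  have h6 : l = 0 := by
    by_contra h0
    apply hq1
    have h7 : q * l = l := by
      conv_lhs => rw [h5]
      rw [← mul_assoc, mul_inv_cancel₀ hq0, one_mul]
    exact mul_right_cancel₀ h0 (by rw [h7, one_mul])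
  rw [h6] at hl
  exact spectrum.zero_notMem ℂ A.isUnit hl

/-! ### The group -/

variable (N : ℕ)

/-- the relators of `⟨a, t, h | t a t⁻¹ = a^N, h^N = 1, [h, a h a⁻¹] = 1⟩` -/
def rels : Set (FreeGroup (Fin 3)) :=
  {FreeGroup.of 1 * FreeGroup.of 0 * (FreeGroup.of 1)⁻¹ * (FreeGroup.of 0 ^ N)⁻¹,
   FreeGroup.of 2 ^ N,
   FreeGroup.of 2 * (FreeGroup.of 0 * FreeGroup.of 2 * (FreeGroup.of 0)⁻¹) *
    ((FreeGroup.of 0 * FreeGroup.of 2 * (FreeGroup.of 0)⁻¹) * FreeGroup.of 2)⁻¹}

/-- the group `⟨a, t, h | t a t⁻¹ = a^N, h^N = 1, [h, a h a⁻¹] = 1⟩` -/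
abbrev Gam : Type := PresentedGroup (rels N)

/-- the generator `a` -/
def a : Gam N := PresentedGroup.of 0
/-- the generator `t` -/
def t : Gam N := PresentedGroup.of 1
/-- the generator `h` -/
def h : Gam N := PresentedGroup.of 2

/-- the conjugate `a h a⁻¹` -/
def h' : Gam N := a N * h N * (a N)⁻¹

/-- `z = a h a⁻¹ h⁻¹` -/
def z : Gam N := h' N * (h N)⁻¹

instance : Group.IsFinitelyPresented (Gam N) := by
  have : Finite (rels N) := by
    have h1 : (rels N).Finite := by
      unfold rels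
      exact Set.toFinite _
    exact h1
  infer_instance

lemma rel_of {w : FreeGroup (Fin 3)} (hw : w ∈ rels N) :
    (PresentedGroup.mk (rels N) w : Gam N) = 1 := PresentedGroup.one_of_mem hw

lemma rel1 : t N * a N * (t N)⁻¹ = a N ^ N := by
  have h1 := rel_of N (Or.inl rfl :
    FreeGroup.of 1 * FreeGroup.of 0 * (FreeGroup.of 1)⁻¹ * (FreeGroup.of 0 ^ N)⁻¹ ∈ rels N)
  rw [map_mul, map_inv, mul_inv_eq_one] at h1
  simp only [map_mul, map_inv, map_pow] at h1
  exact h1

lemma rel2 : h N ^ N = 1 := by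
  have h1 := rel_of N (Or.inr (Or.inl rfl) : FreeGroup.of 2 ^ N ∈ rels N)
  simp only [map_pow] at h1
  exact h1

lemma rel3 : h N * h' N = h' N * h N := by
  have h1 := rel_of N (Or.inr (Or.inr rfl) : FreeGroup.of 2 *
    (FreeGroup.of 0 * FreeGroup.of 2 * (FreeGroup.of 0)⁻¹) *
    ((FreeGroup.of 0 * FreeGroup.of 2 * (FreeGroup.of 0)⁻¹) * FreeGroup.of 2)⁻¹ ∈ rels N)
  rw [map_mul, map_inv, mul_inv_eq_one] at h1
  simp only [map_mul, map_inv] at h1
  exact h1

lemma h'_pow : h' N ^ N = 1 := by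
  unfold h'
  rw [conj_pow, rel2, mul_one, mul_inv_cancel]

lemma z_pow : z N ^ N = 1 := by
  have hc : Commute (h' N) (h N)⁻¹ := (show Commute (h' N) (h N) from (rel3 N).symm).inv_right
  unfold z
  rw [hc.mul_pow, h'_pow, inv_pow, rel2, inv_one, one_mul]

/-- the universal property -/
def lift {K : Type} [Group K] (x : Fin 3 → K) (h1 : x 1 * x 0 * (x 1)⁻¹ = x 0 ^ N)
    (h2 : x 2 ^ N = 1) (h3 : x 2 * (x 0 * x 2 * (x 0)⁻¹) = (x 0 * x 2 * (x 0)⁻¹) * x 2) :
    Gam N →* K :=
  PresentedGroup.toGroup (f := x) (by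
    rintro w (rfl | rfl | rfl)
    · simp only [map_mul, map_inv, map_pow, FreeGroup.lift_apply_of]
      rw [mul_inv_eq_one]
      exact h1
    · simp only [map_pow, FreeGroup.lift_apply_of]
      exact h2
    · simp only [map_mul, map_inv, FreeGroup.lift_apply_of]
      rw [h3, mul_inv_cancel])

lemma lift_of {K : Type} [Group K] (x : Fin 3 → K) (h1 : x 1 * x 0 * (x 1)⁻¹ = x 0 ^ N)
    (h2 : x 2 ^ N = 1) (h3 : x 2 * (x 0 * x 2 * (x 0)⁻¹) = (x 0 * x 2 * (x 0)⁻¹) * x 2)
    (i : Fin 3) : lift N x h1 h2 h3 (PresentedGroup.of i) = x i :=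
  PresentedGroup.toGroup.of _

/-! ### The defect of a representation -/

/-- `ψ z - q` as a linear map -/
noncomputable def L {n : ℕ} (q : ℂ) (ψ : Gam N →* (E n ≃ₗᵢ[ℂ] E n)) : E n →ₗ[ℂ] E n :=
  (ψ (z N)).toLinearEquiv.toLinearMap - q • LinearMap.id

lemma L_apply {n : ℕ} (q : ℂ) (ψ : Gam N →* (E n ≃ₗᵢ[ℂ] E n)) (v : E n) :
    L N q ψ v = ψ (z N) v - q • v := rfl

lemma range_pos {n : ℕ} (hN : 1 ≤ N) (q : ℂ) (hq : q ^ N = 1) (hq1 : q ≠ 1) (hn : n ≠ 0)
    (ψ : Gam N →* (E n ≃ₗᵢ[ℂ] E n)) : Module.finrank ℂ (LinearMap.range (L N q ψ)) ≠ 0 := by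
  intro h0
  have hbot : LinearMap.range (L N q ψ) = ⊥ := Submodule.finrank_eq_zero.mp h0
  have hz : ∀ v, ψ (z N) v = q • v := by
    intro v
    have h1 : L N q ψ v ∈ LinearMap.range (L N q ψ) := ⟨v, rfl⟩
    rw [hbot, Submodule.mem_bot, L_apply] at h1
    exact sub_eq_zero.1 h1
  have : NeZero n := ⟨hn⟩
  let U : Gam N →* (Module.End ℂ (E n))ˣ :=
    (LinearMap.GeneralLinearGroup.generalLinearEquiv ℂ (E n)).symm.toMonoidHom.comp
      ({ toFun := fun g => (ψ g).toLinearEquiv
         map_one' := by rw [map_one]; rfl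
         map_mul' := fun g k => by rw [map_mul]; rfl } : Gam N →* (E n ≃ₗ[ℂ] E n))
  have hU : ∀ g v, (U g).val v = ψ g v := fun g v => rfl
  refine key (U (a N)) (U (t N)) (U (h N)) N hN q hq hq1 ?_ ?_
  · rw [← map_mul, ← map_inv, ← map_mul, rel1, map_pow]
  · rw [← map_mul, ← map_mul]
    ext1 v
    rw [LinearMap.smul_apply, hU, hU]
    have h1 : a N * h N = z N * (h N * a N) := by unfold z h'; group
    rw [h1, map_mul]
    exact hz _

/-! ### The examples -/

section examples

variable (k : ℕ)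

/-- the index set -/
abbrev I : Type := Fin (N * k + 1)

lemma cast_rel : (N : I N k) * (k : I N k) + 1 = 0 := by
  have h1 : ((N * k + 1 : ℕ) : I N k) = 0 := Fin.natCast_self _
  push_cast at h1
  exact h1

/-- multiplication by `N` -/
def mulN : I N k ≃ I N k where
  toFun i := (N : I N k) * i
  invFun i := -(k : I N k) * i
  left_inv i := by
    have h1 := cast_rel N k
    linear_combination (-i) * h1
  right_inv i := by
    have h1 := cast_rel N k
    linear_combination (-i) * h1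

/-- the shift -/
def sh : I N k ≃ I N k := Equiv.addRight 1

lemma sh_iter (m : ℕ) (i : I N k) : (sh N k)^[m] i = i + (m : I N k) := by
  induction m with
  | zero => simp
  | succ m ih =>
    rw [Function.iterate_succ_apply', ih]
    change i + (m : I N k) + 1 = i + ((m + 1 : ℕ) : I N k)
    push_cast
    ring

/-- multiplication by a complex number of absolute value one -/
noncomputable def sc (u : ℂ) (hu : ‖u‖ = 1) : ℂ ≃ₗᵢ[ℂ] ℂ :=
  { LinearEquiv.smulOfNeZero ℂ ℂ u (by rintro rfl; simp at hu) with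
    norm_map' := fun v => by
      change ‖u • v‖ = ‖v‖
      rw [norm_smul, hu, one_mul] }

lemma sc_apply (u : ℂ) (hu : ‖u‖ = 1) (v : ℂ) : sc u hu v = u * v := rfl

variable (q : ℂ) (hq : ‖q‖ = 1)

lemma norm_qpow (j : ℕ) (hq : ‖q‖ = 1) : ‖q ^ j‖ = 1 := by rw [norm_pow, hq, one_pow]

/-- the three isometries -/
noncomputable def gR : Fin 3 → (E (N * k + 1) ≃ₗᵢ[ℂ] E (N * k + 1))
  | 0 => LinearIsometryEquiv.piLpCongrLeft 2 ℂ ℂ (sh N k)
  | 1 => LinearIsometryEquiv.piLpCongrLeft 2 ℂ ℂ (mulN N k)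
  | 2 => LinearIsometryEquiv.piLpCongrRight 2 (fun i : I N k => sc (q ^ i.val) (norm_qpow q _ hq))

lemma gR0 (v : E (N * k + 1)) (i : I N k) : gR N k q hq 0 v i = v ((sh N k).symm i) := rfl
lemma gR1 (v : E (N * k + 1)) (i : I N k) : gR N k q hq 1 v i = v ((mulN N k).symm i) := rfl
lemma gR2 (v : E (N * k + 1)) (i : I N k) : gR N k q hq 2 v i = q ^ i.val * v i := rfl

lemma gR0' (v : E (N * k + 1)) (i : I N k) : (gR N k q hq 0)⁻¹ v i = v (sh N k i) := by
  have h1 : v = gR N k q hq 0 ((gR N k q hq 0)⁻¹ v) := ((gR N k q hq 0).apply_symm_apply v).symm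
  conv_rhs => rw [h1, gR0, Equiv.symm_apply_apply]

lemma gR1' (v : E (N * k + 1)) (i : I N k) : (gR N k q hq 1)⁻¹ v i = v (mulN N k i) := by
  have h1 : v = gR N k q hq 1 ((gR N k q hq 1)⁻¹ v) := ((gR N k q hq 1).apply_symm_apply v).symm
  conv_rhs => rw [h1, gR1, Equiv.symm_apply_apply]

lemma gR0_pow (m : ℕ) (v : E (N * k + 1)) (i : I N k) :
    (gR N k q hq 0 ^ m) v i = v (i - (m : I N k)) := by
  induction m generalizing v with
  | zero =>
    rw [pow_zero]
    change v i = _
    simp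
  | succ m ih =>
    rw [pow_succ]
    change (gR N k q hq 0 ^ m) (gR N k q hq 0 v) i = _
    rw [ih, gR0]
    have h1 : (sh N k).symm (i - (m : I N k)) = i - ((m + 1 : ℕ) : I N k) := by
      rw [Equiv.symm_apply_eq]
      change i - (m : I N k) = i - ((m + 1 : ℕ) : I N k) + 1
      push_cast
      ring
    rw [h1]

lemma gR2_pow (m : ℕ) (v : E (N * k + 1)) (i : I N k) :
    (gR N k q hq 2 ^ m) v i = (q ^ i.val) ^ m * v i := by
  induction m generalizing v with
  | zero =>
    rw [pow_zero, pow_zero, one_mul]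
    rfl
  | succ m ih =>
    rw [pow_succ]
    change (gR N k q hq 2 ^ m) (gR N k q hq 2 v) i = _
    rw [ih, gR2, pow_succ, mul_assoc]

/-- the representation of dimension `N k + 1` -/
noncomputable def psiR (hqN : q ^ N = 1) : Gam N →* (E (N * k + 1) ≃ₗᵢ[ℂ] E (N * k + 1)) := lift N (gR N k q hq)
  (by
    ext v i
    rw [gR0_pow]
    change gR N k q hq 1 (gR N k q hq 0 ((gR N k q hq 1)⁻¹ v)) i = _
    rw [gR1, gR0, gR1']
    have h0 : (mulN N k) ((sh N k).symm ((mulN N k).symm i)) = i - (N : I N k) := by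
      change (N : I N k) * ((sh N k).symm ((mulN N k).symm i)) = _
      have h1 : (sh N k).symm ((mulN N k).symm i) = (mulN N k).symm i - 1 := by
        rw [Equiv.symm_apply_eq]
        change _ = (mulN N k).symm i - 1 + 1
        ring
      rw [h1, mul_sub, mul_one]
      have h2 : (N : I N k) * (mulN N k).symm i = i := (mulN N k).apply_symm_apply i
      rw [h2]
    rw [h0])
  (by
    ext v i
    have h1 : (q ^ i.val) ^ N = 1 := by rw [← pow_mul, mul_comm, pow_mul, hqN, one_pow]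
    rw [gR2_pow, h1, one_mul]
    rfl)
  (by
    ext v i
    change gR N k q hq 2 (gR N k q hq 0 (gR N k q hq 2 ((gR N k q hq 0)⁻¹ v))) i =
      gR N k q hq 0 (gR N k q hq 2 ((gR N k q hq 0)⁻¹ (gR N k q hq 2 v))) i
    rw [gR2, gR0, gR2, gR0', gR0, gR2, gR0', gR2]
    rw [Equiv.apply_symm_apply]
    ring)

variable (hqN : q ^ N = 1)

lemma psiR_h (v : E (N * k + 1)) (i : I N k) : psiR N k q hq hqN (h N) v i = q ^ i.val * v i := by
  have : psiR N k q hq hqN (h N) = gR N k q hq 2 := lift_of N _ _ _ _ _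
  rw [this, gR2]

lemma psiR_h' (v : E (N * k + 1)) (i : I N k) :
    psiR N k q hq hqN (h' N) v i = q ^ ((sh N k).symm i).val * v i := by
  have e0 : psiR N k q hq hqN (a N) = gR N k q hq 0 := lift_of N _ _ _ _ _
  have e2 : psiR N k q hq hqN (h N) = gR N k q hq 2 := lift_of N _ _ _ _ _
  have e3 : psiR N k q hq hqN (h' N) = gR N k q hq 0 * gR N k q hq 2 * (gR N k q hq 0)⁻¹ := by
    unfold h'
    rw [map_mul, map_mul, map_inv, e0, e2]
  rw [e3]
  change gR N k q hq 0 (gR N k q hq 2 ((gR N k q hq 0)⁻¹ v)) i = _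
  rw [gR0, gR2, gR0', Equiv.apply_symm_apply]

lemma psiR_z (v : E (N * k + 1)) (i : I N k) (hi : i ≠ 0) :
    psiR N k q hq hqN (z N) v i = q⁻¹ * v i := by
  have hq0 : q ≠ 0 := by rintro rfl; simp at hq
  obtain ⟨u, rfl⟩ := (psiR N k q hq hqN (h N)).surjective v
  have h1 : psiR N k q hq hqN (z N) (psiR N k q hq hqN (h N) u) = psiR N k q hq hqN (h' N) u := by
    have h2 : h' N = z N * h N := by unfold z; group
    rw [h2, map_mul]
    rfl
  rw [h1, psiR_h', psiR_h]
  have h3 : ((sh N k).symm i).val = i.val - 1 := by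
    have h4 : (sh N k).symm i = i - 1 := by
      rw [Equiv.symm_apply_eq]
      change i = i - 1 + 1
      ring
    rw [h4, Fin.val_sub_one_of_ne_zero hi]
  have h5 : i.val ≠ 0 := fun h => hi (Fin.ext h)
  obtain ⟨m, hm⟩ : ∃ m, i.val = m + 1 := ⟨i.val - 1, by omega⟩
  rw [h3, hm, Nat.add_sub_cancel, pow_succ]
  field_simp

lemma range_le_one :
    Module.finrank ℂ (LinearMap.range (L N q⁻¹ (psiR N k q hq hqN))) ≤ 1 := by
  let f : LinearMap.range (L N q⁻¹ (psiR N k q hq hqN)) →ₗ[ℂ] ℂ := {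
    toFun := fun v => v.1 0
    map_add' := fun v w => rfl
    map_smul' := fun c v => rfl }
  have hf : Function.Injective f := by
    rw [injective_iff_map_eq_zero]
    rintro ⟨_, v, rfl⟩ h0
    apply Subtype.ext
    ext i
    by_cases hi : i = 0
    · rw [hi]
      exact h0
    · change psiR N k q hq hqN (z N) v i - (q⁻¹ • v) i = 0
      rw [psiR_z N k q hq hqN v i hi]
      exact sub_self _
  have := LinearMap.finrank_le_finrank_of_injective hf
  rwa [Module.finrank_self] at this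

end examples

/-! ### The main result in setting (R) -/

/-- the cyclic subgroup generated by `z` -/
def H : Subgroup (Gam N) := Subgroup.zpowers (z N)

lemma orderOf_z (hN : 2 ≤ N) : orderOf (z N) = N := by
  apply Nat.dvd_antisymm (orderOf_dvd_of_pow_eq_one (z_pow N))
  have hq := Complex.isPrimitiveRoot_exp N (by omega)
  set q := Complex.exp (2 * Real.pi * Complex.I / N) with hqdef
  have hqn : ‖q‖ = 1 := hq.norm'_eq_one (by omega)
  have h0 : (1 : I N 1) ≠ 0 := by
    intro h
    have := congrArg Fin.val h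
    rw [Fin.val_one'] at this
    simp only [mul_one, Fin.val_zero] at this
    rw [Nat.mod_eq_of_lt (by omega)] at this
    omega
  have key : ∀ (m : ℕ) (v : E (N * 1 + 1)),
      psiR N 1 q hqn hq.pow_eq_one (z N ^ m) v 1 = (q⁻¹) ^ m * v 1 := by
    intro m
    induction m with
    | zero =>
      intro v
      rw [pow_zero, pow_zero, map_one, one_mul]
      rfl
    | succ m ih =>
      intro v
      rw [pow_succ, map_mul]
      change psiR N 1 q hqn hq.pow_eq_one (z N ^ m) (psiR N 1 q hqn hq.pow_eq_one (z N) v) 1 = _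
      rw [ih, psiR_z N 1 q hqn hq.pow_eq_one v 1 h0, pow_succ, mul_assoc]
  have h1 := key (orderOf (z N)) (WithLp.toLp 2 (fun _ => 1))
  rw [pow_orderOf_eq_one, map_one] at h1
  have h2 : (q⁻¹) ^ orderOf (z N) = 1 := by
    have h3 : (1 : ℂ) = (q⁻¹) ^ orderOf (z N) * 1 := h1
    rw [mul_one] at h3
    exact h3.symm
  rw [inv_pow, inv_eq_one] at h2
  exact hq.dvd_of_pow_eq_one _ h2

lemma sum_le {r : ℕ} {d c f : Fin r → ℕ} (hf : ∀ j, d j ≠ 0 → f j ≠ 0) :
    ∑ j, c j * d j ≤ (∑ j, d j) * ∑ j, c j * f j := by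
  rw [Finset.mul_sum]
  refine Finset.sum_le_sum fun j _ => ?_
  by_cases h0 : d j = 0
  · rw [h0, mul_zero]
    exact Nat.zero_le _
  · have h1 : d j ≤ ∑ j, d j := Finset.single_le_sum (fun _ _ => Nat.zero_le _) (Finset.mem_univ j)
    have h2 : 1 ≤ f j := Nat.one_le_iff_ne_zero.mpr (hf j h0)
    calc c j * d j = d j * (c j * 1) := by ring
      _ ≤ (∑ j, d j) * (c j * f j) := Nat.mul_le_mul h1 (Nat.mul_le_mul_left _ h2)

theorem not_finGenR (hN : 2 ≤ N) : ¬ FinGenR (H N) := by
  rintro ⟨r, d, phi, hgen⟩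
  have hq := Complex.isPrimitiveRoot_exp N (by omega)
  set q := Complex.exp (2 * Real.pi * Complex.I / N) with hqdef
  have hqn : ‖q‖ = 1 := hq.norm'_eq_one (by omega)
  have hqN : q ^ N = 1 := hq.pow_eq_one
  have hqi : (q⁻¹) ^ N = 1 := by rw [inv_pow, hqN, inv_one]
  have hqi1 : q⁻¹ ≠ 1 := by
    intro h
    exact hq.ne_one (by omega) (inv_eq_one.1 h)
  set D := ∑ j, d j with hD
  obtain ⟨c, e, he⟩ := hgen (N * D + 1) (psiR N D q hqn hqN)
  have hn : N * D + 1 = ∑ j, c j * d j := by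
    have h1 := e.finrank_eq
    rw [Module.finrank_pi_fintype] at h1
    simp only [Module.finrank_pi_fintype, finrank_euclideanSpace_fin, Finset.sum_const,
      Finset.card_univ, Fintype.card_fin, smul_eq_mul] at h1
    exact h1
  have mem_H : z N ∈ H N := Subgroup.mem_zpowers _
  have hL : ∑ j, c j * Module.finrank ℂ (LinearMap.range (L N q⁻¹ (phi j))) ≤
      Module.finrank ℂ (LinearMap.range (L N q⁻¹ (psiR N D q hqn hqN))) := by
    have h1 : Module.finrank ℂ (∀ j, Fin (c j) → LinearMap.range (L N q⁻¹ (phi j))) =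
        ∑ j, c j * Module.finrank ℂ (LinearMap.range (L N q⁻¹ (phi j))) := by
      rw [Module.finrank_pi_fintype]
      simp only [Module.finrank_pi_fintype, Finset.sum_const,
        Finset.card_univ, Fintype.card_fin, smul_eq_mul]
    rw [← h1]
    let g : (∀ j, Fin (c j) → LinearMap.range (L N q⁻¹ (phi j))) →ₗ[ℂ]
        LinearMap.range (L N q⁻¹ (psiR N D q hqn hqN)) := {
      toFun := fun w => ⟨e.symm (fun j k => (w j k : E (d j))), by
        choose v hv using fun j k => (w j k).2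
        refine ⟨e.symm v, ?_⟩
        apply e.injective
        rw [L_apply, map_sub, map_smul]
        funext j k
        rw [LinearEquiv.apply_symm_apply, LinearEquiv.apply_symm_apply]
        change e (psiR N D q hqn hqN (z N) (e.symm v)) j k - q⁻¹ • v j k = _
        rw [he _ mem_H, LinearEquiv.apply_symm_apply, ← hv]
        rfl⟩
      map_add' := by
        intro w w'
        apply Subtype.ext
        change e.symm _ = e.symm _ + e.symm _
        rw [← map_add]
        rfl
      map_smul' := by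
        intro z w
        apply Subtype.ext
        change e.symm _ = z • e.symm _
        rw [← map_smul]
        rfl }
    refine LinearMap.finrank_le_finrank_of_injective (f := g) ?_
    intro w w' hw
    have h2 : e.symm (fun j k => (w j k : E (d j))) = e.symm (fun j k => (w' j k : E (d j))) :=
      congrArg Subtype.val hw
    have h3 := e.symm.injective h2
    funext j k
    exact Subtype.ext (congrFun (congrFun h3 j) k)
  have h1 := sum_le (c := c) (fun j hj => range_pos N (by omega) q⁻¹ hqi hqi1 hj (phi j))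
  have h2 := range_le_one N D q hqn hqN
  rw [← hn, ← hD] at h1
  have h3 : D * ∑ j, c j * Module.finrank ℂ (LinearMap.range (L N q⁻¹ (phi j))) ≤ D * 1 :=
    Nat.mul_le_mul_left _ (hL.trans h2)
  have h4 : 1 * D ≤ N * D := Nat.mul_le_mul_right _ (by omega)
  omega

end Pool.Agent.KS6_43.AF
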